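import Pool.Agent.Work.MP_e9bccb_gt.Main

/-!
Problem MP_e9bccb_gt, Q1: every compact Hausdorff space which is splittable over the class of
Corson compact spaces is itself Corson compact.
-/

open Set Topology

namespace Pool.Agent.Results.MP_e9bccb_gt.CorsonSplittable

universe u v

/-- The Σ-product of real lines `Σ(ℝ^κ)`: the points of the Tychonoff product `κ → ℝ` with at most
countably many nonzero coordinates. As a type it carries the subspace topology. -/
def SigmaProduct (κ : Type v) : Set (κ → ℝ) := {x | {α | x α ≠ 0}.Countable}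

/-- A space is Corson compact if it is compact Hausdorff and homeomorphic to a subspace of the
Σ-product `Σ(ℝ^κ)` for some `κ`. -/
def IsCorsonCompact (Y : Type v) [TopologicalSpace Y] : Prop :=
  CompactSpace Y ∧ T2Space Y ∧ ∃ (κ : Type v) (S : Set (SigmaProduct κ)), Nonempty (Y ≃ₜ S)

/-- `X` is splittable over the class `P` of spaces if for every subset `A` of `X` there are a
space `Y` in `P` and a continuous map `f : X → Y` with `f⁻¹(f(A)) = A`. -/
def SplittableOver (P : ∀ (Y : Type v) [TopologicalSpace Y], Prop) (X : Type u)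
    [TopologicalSpace X] : Prop :=
  ∀ A : Set X, ∃ (Y : Type v) (_ : TopologicalSpace Y), P Y ∧
    ∃ f : X → Y, Continuous f ∧ f ⁻¹' (f '' A) = A

/-- Every compact Hausdorff space splittable over the class of Corson compact spaces is Corson
compact. -/
theorem result (X : Type u) [TopologicalSpace X] [CompactSpace X] [T2Space X]
    (h : SplittableOver.{u, v} (fun Y _ => IsCorsonCompact Y) X) : IsCorsonCompact X := by
  classical
  have hX : Pool.Agent.Work.MP_e9bccb_gt.SplitAll X := by
    intro A
    obtain ⟨Y, _, ⟨_, _, κ, S, ⟨e⟩⟩, f, hf, hA⟩ := h A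
    let G : κ → X → ℝ := fun α x => ((e (f x) : SigmaProduct κ) : κ → ℝ) α
    have hG : ∀ α, Continuous (G α) := fun α =>
      (continuous_apply α).comp (continuous_subtype_val.comp
        (continuous_subtype_val.comp (e.continuous.comp hf)))
    refine ⟨range G, ⟨?_, ?_⟩, ?_⟩
    · rintro g ⟨α, rfl⟩
      exact hG α
    · intro x
      have hc : {α | ((e (f x) : SigmaProduct κ) : κ → ℝ) α ≠ 0}.Countable :=
        ((e (f x) : SigmaProduct κ)).2
      refine (hc.image G).mono ?_
      rintro g ⟨⟨α, rfl⟩, hα⟩
      exact ⟨α, hα, rfl⟩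
    · intro x hx y hy
      by_contra hcon
      push Not at hcon
      have h1 : f x = f y := by
        apply e.injective
        apply Subtype.ext
        apply Subtype.ext
        funext α
        exact hcon (G α) ⟨α, rfl⟩
      apply hy
      rw [← hA]
      exact ⟨x, hx, h1⟩
  obtain ⟨𝒢, h1, h2, h3⟩ := Pool.Agent.Work.MP_e9bccb_gt.corsonOn_closure hX (Set.univ : Set X)
  rw [closure_univ] at h1 h2 h3
  let F : X → SigmaProduct 𝒢 := fun x => ⟨fun g => (g : X → ℝ) x, by
    have hc := h2 x (mem_univ x)
    refine (hc.preimage (f := ((↑) : 𝒢 → X → ℝ)) Subtype.val_injective).mono ?_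
    intro g hg
    exact ⟨g.2, hg⟩⟩
  have hF : Continuous F := by
    refine Continuous.subtype_mk (continuous_pi fun g => ?_) _
    exact continuousOn_univ.1 (h1 g g.2)
  have hinj : Function.Injective F := by
    intro x y hxy
    refine h3 x (mem_univ x) y (mem_univ y) (fun g hg => ?_)
    have := congrFun (congrArg Subtype.val hxy) ⟨g, hg⟩
    exact this
  have hemb : IsEmbedding F := (hF.isClosedEmbedding hinj).isEmbedding
  exact ⟨inferInstance, inferInstance, 𝒢, range F, ⟨hemb.toHomeomorph⟩⟩

end Pool.Agent.Results.MP_e9bccb_gt.CorsonSplittable
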